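import Mathlib

namespace Pool.Agent.P.MP_7b9a49_nt

/-- The height of an integer polynomial: the largest absolute value of a coefficient. -/
def height (f : Polynomial ℤ) : ℕ := f.support.sup fun i => (f.coeff i).natAbs

end Pool.Agent.P.MP_7b9a49_nt
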