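import Pool.Agent.P.MP_7b9a49_nt.FamPack

namespace Pool.Agent.P.MP_7b9a49_nt.Fam

open Finset Polynomial

/-- The folded coefficient sequence. -/
def cyc (U : ℤ[X]) (N r : ℕ) : ℤ := U.coeff (r % N) + U.coeff (r % N + N)

/-- The coefficients of `U / (1 - X ^ N)`. -/
def ser (U : ℤ[X]) (N r : ℕ) : ℤ := if r < N then U.coeff r else cyc U N r

theorem cyc_add (U : ℤ[X]) (N r : ℕ) : cyc U N (r + N) = cyc U N r := by
  simp [cyc]

theorem ser_rec (U : ℤ[X]) (N : ℕ) (hU : U.natDegree < 2 * N) (r : ℕ) :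
    ser U N r = (if N ≤ r then ser U N (r - N) else 0) + U.coeff r := by
  by_cases h1 : r < N
  · simp [ser, h1, not_le.2 h1]
  · obtain ⟨e, rfl⟩ : ∃ e, r = e + N := ⟨r - N, by omega⟩
    rw [if_pos (by omega), Nat.add_sub_cancel, ser, if_neg h1, cyc_add, ser]
    split_ifs with h2
    · rw [cyc, Nat.mod_eq_of_lt h2]
    · rw [coeff_eq_zero_of_natDegree_lt (p := U) (n := e + N) (by omega), add_zero]

theorem coeff_formula (F U G : ℤ[X]) (N q D : ℕ) (hN : 0 < N) (hU : U.natDegree < 2 * N)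
    (hG : G.natDegree < D) (h : F * (X ^ N - 1) = U * expand ℤ q G) (m : ℕ) :
    F.coeff m = -∑ i ∈ range D, G.coeff i * (if i * q ≤ m then ser U N (m - i * q) else 0) := by
  have hE : ∀ m, (U * expand ℤ q G).coeff m =
      ∑ i ∈ range D, G.coeff i * (if i * q ≤ m then U.coeff (m - i * q) else 0) := by
    intro m
    conv_lhs => rw [G.as_sum_range' D hG]
    rw [map_sum, mul_sum, finsetSum_coeff]
    refine sum_congr rfl fun i _ => ?_
    rw [expand_monomial, ← C_mul_X_pow_eq_monomial, mul_left_comm, coeff_C_mul, coeff_mul_X_pow']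
  induction m using Nat.strong_induction_on with
  | _ m ih =>
    have h1 := congrArg (fun P => P.coeff m) h
    simp only [mul_sub, mul_one, coeff_sub, coeff_mul_X_pow', hE] at h1
    have h2 : (if N ≤ m then F.coeff (m - N) else 0) = -∑ i ∈ range D, G.coeff i *
        (if i * q ≤ m then (if N ≤ m - i * q then ser U N (m - i * q - N) else 0) else 0) := by
      by_cases hm : N ≤ m
      · rw [if_pos hm, ih (m - N) (by omega)]
        congr 1
        refine sum_congr rfl fun i _ => ?_
        congr 1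
        by_cases a1 : i * q ≤ m - N
        · rw [if_pos a1, if_pos (by omega), if_pos (by omega), Nat.sub_right_comm]
        · rw [if_neg a1]
          split_ifs with a2 a3
          · omega
          · rfl
          · rfl
      · rw [if_neg hm, sum_eq_zero, neg_zero]
        intro i _
        rw [if_neg (show ¬ N ≤ m - i * q by omega)]
        simp
    have h3 : ∑ i ∈ range D, G.coeff i * (if i * q ≤ m then ser U N (m - i * q) else 0) =
        ∑ i ∈ range D, G.coeff i *
          (if i * q ≤ m then (if N ≤ m - i * q then ser U N (m - i * q - N) else 0) else 0) +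
        ∑ i ∈ range D, G.coeff i * (if i * q ≤ m then U.coeff (m - i * q) else 0) := by
      rw [← sum_add_distrib]
      refine sum_congr rfl fun i _ => ?_
      rw [← mul_add]
      congr 1
      by_cases a1 : i * q ≤ m
      · simp only [if_pos a1]
        exact ser_rec U N hU _
      · simp [a1]
    rw [h3]
    linarith

/-- The table of partial sums. -/
def tab (U G : ℤ[X]) (N ρ k u : ℕ) : ℤ := ∑ i ∈ range k, G.coeff i * cyc U N (u + i * (N - ρ))

theorem coeff_block (F U G : ℤ[X]) (N q : ℕ) (hN : 0 < N) (hq : N ≤ q) (hU : U.natDegree < 2 * N)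
    (h : F * (X ^ N - 1) = U * expand ℤ q G) (k s : ℕ) (hs : s < q) :
    F.coeff (k * q + s) = -tab U G N (q % N) (k + 1) ((k * q + s) % N) +
      (if s < N then G.coeff k * U.coeff (s + N) else 0) := by
  rw [coeff_formula F U G N q (G.natDegree + 1 + k) hN hU (by omega) h,
    ← sum_subset (s₁ := range (k + 1)) (range_subset_range.2 (by omega))]
  · have hc : ∀ i ≤ k, cyc U N ((k * q + s) % N + i * (N - q % N)) =
        cyc U N (k * q + s - i * q) := by
      intro i hi
      have h0 : i * q ≤ k * q := Nat.mul_le_mul_right _ hi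
      have h1 : (k * q + s) % N + i * (N - q % N) ≡ k * q + s - i * q [MOD N] := by
        apply Nat.ModEq.add_right_cancel' (i * q)
        rw [Nat.sub_add_cancel (by omega), add_assoc, ← mul_add]
        have h2 : N - q % N + q = N * (1 + q / N) := by
          have := Nat.mod_lt q hN
          have := Nat.mod_add_div q N
          rw [mul_add, mul_one]
          omega
        rw [h2, mul_left_comm]
        exact (Nat.mod_modEq _ _).add ((Nat.modEq_zero_iff_dvd).2 (dvd_mul_right _ _))
      rw [cyc, cyc, h1]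
    rw [tab, sum_range_succ, sum_range_succ, hc k le_rfl, if_pos (by omega),
      Nat.add_sub_cancel_left]
    have h3 : ∑ i ∈ range k, G.coeff i *
        (if i * q ≤ k * q + s then ser U N (k * q + s - i * q) else 0) =
        ∑ i ∈ range k, G.coeff i * cyc U N ((k * q + s) % N + i * (N - q % N)) := by
      refine sum_congr rfl fun i hi => ?_
      have hi' := mem_range.1 hi
      have h0 : (i + 1) * q ≤ k * q := Nat.mul_le_mul_right _ hi'
      rw [add_mul, one_mul] at h0
      rw [hc i hi'.le, if_pos (by omega), ser, if_neg (by omega)]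
    rw [h3, ser]
    split_ifs with h4
    · rw [cyc, Nat.mod_eq_of_lt h4]
      ring
    · ring
  · intro i _ hi
    have hi' : k + 1 ≤ i := by simpa using hi
    have h0 : (k + 1) * q ≤ i * q := Nat.mul_le_mul_right _ hi'
    rw [add_mul, one_mul] at h0
    rw [if_neg (by omega), mul_zero]

theorem tab_bd (U G : ℤ[X]) (N ρ : ℕ) (hU hG : ℕ) (bU : Bd U hU) (bG : Bd G hG) (k u : ℕ) :
    |tab U G N ρ k u| ≤ (k * (hG * (2 * hU)) : ℕ) := by
  induction k with
  | zero => simp [tab]
  | succ k ih =>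
    rw [tab] at ih ⊢
    rw [sum_range_succ]
    have h1 : |G.coeff k * cyc U N (u + k * (N - ρ))| ≤ hG * (2 * hU) := by
      rw [abs_mul]
      refine mul_le_mul (bG k) ?_ (abs_nonneg _) (Int.natCast_nonneg _)
      refine (abs_add_le _ _).trans ?_
      have a := bU ((u + k * (N - ρ)) % N)
      have b := bU ((u + k * (N - ρ)) % N + N)
      linarith
    refine (abs_add_le _ _).trans ?_
    push_cast at ih ⊢
    linarith

theorem pack_cyc (U : ℤ[X]) (B N : ℕ) (hB : 0 < B) (hU : U.natDegree < 2 * N) :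
    pack B N (cyc U N) ≡ U.eval (B : ℤ) [ZMOD ((B ^ N - 1 : ℕ) : ℤ)] := by
  have hM : ((B ^ N - 1 : ℕ) : ℤ) = (B : ℤ) ^ N - 1 := by
    rw [Nat.cast_sub (Nat.one_le_pow _ _ hB)]; simp
  rw [eval_eq_sum_range' (n := N + N) (by omega), sum_range_add, hM, Int.modEq_iff_dvd, pack,
    ← sum_add_distrib, ← sum_sub_distrib]
  refine dvd_sum fun i hi => ⟨U.coeff (N + i) * (B : ℤ) ^ i, ?_⟩
  rw [cyc, Nat.mod_eq_of_lt (mem_range.1 hi), add_comm i N]
  ring

theorem pack_tab (U G : ℤ[X]) (B N ρ : ℕ) (hB : 0 < B) (hρ : ρ ≤ N) (hU : U.natDegree < 2 * N)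
    (k : ℕ) : ∑ i ∈ range k, G.coeff i * (U.eval (B : ℤ) * ((B ^ ρ : ℕ) : ℤ) ^ i) ≡
      pack B N (tab U G N ρ k) [ZMOD ((B ^ N - 1 : ℕ) : ℤ)] := by
  induction k with
  | zero => simp [pack, tab]
  | succ k ih =>
    have e : pack B N (tab U G N ρ (k + 1)) = pack B N (tab U G N ρ k) +
        G.coeff k * pack B N (fun u => cyc U N (u + k * (N - ρ))) := by
      simp only [pack, tab, sum_range_succ, add_mul, sum_add_distrib, mul_sum, mul_assoc]
    rw [e, sum_range_succ]
    refine ih.add (Int.ModEq.mul_left _ ?_)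
    refine Int.ModEq.symm ((pack_rot B N ρ hB hρ _ (cyc_add U N) k).trans ?_)
    push_cast
    exact (pack_cyc U B N hB hU).mul_right _

/-- The whole check: it takes the values of `G` and `U` at `B`. -/
def run (B N ρ D hG : ℕ) (p : ℕ → ℕ → Bool) (eG eU : ℤ) : Bool :=
  force (B ^ N - 1) fun Mo => force (B ^ ρ) fun Br =>
    force (((eG % ((B ^ D - 1 : ℕ) : ℤ)).toNat + hG * ((B ^ D - 1) / (B - 1))) % (B ^ D - 1))
      fun x => force (eU % (Mo : ℤ)).toNat fun z => loop B Mo hG Br p D 0 x 0 z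

theorem run_spec (U G : ℤ[X]) (B N ρ D hG : ℕ) (p : ℕ → ℕ → Bool) (hN : 0 < N) (hρ : ρ ≤ N)
    (hB : hG + hG + 2 ≤ B) (dU : U.natDegree < 2 * N) (dG : G.natDegree < D) (bG : Bd G hG)
    (h : run B N ρ D hG p (G.eval (B : ℤ)) (U.eval (B : ℤ)) = true) (j : ℕ) (hj : j < D) :
    ∃ y : ℕ, y ≤ B ^ N - 1 ∧ (y : ℤ) ≡ pack B N (tab U G N ρ (j + 1))
      [ZMOD ((B ^ N - 1 : ℕ) : ℤ)] ∧ p j y = true := by
  simp only [run, force_eq] at h
  have pos : ∀ n, 0 < n → 0 < B ^ n - 1 := fun n hn => by
    have := Nat.one_lt_pow (a := B) hn.ne' (by omega)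
    omega
  have hm : ∀ (e : ℤ) (M : ℕ), 0 < M → (((e % (M : ℤ)).toNat : ℕ) : ℤ) = e % M := fun e M hM =>
    Int.toNat_of_nonneg (Int.emod_nonneg _ (by omega))
  obtain ⟨y, h1, h2, h3⟩ := loop_spec B (B ^ N - 1) hG (B ^ ρ) D _ p G.coeff (U.eval (B : ℤ))
    (pos N hN) (fun i hi => digit B D hG hG G.coeff bG le_rfl hB
      (G.eval (B : ℤ) % ((B ^ D - 1 : ℕ) : ℤ)).toNat (by
      rw [hm _ _ (pos D (by omega)), eval_eq_sum_range' dG]
      exact Int.mod_modEq _ _) i hi) D 0 _ 0 _ h (by omega) (by simp) (by simp) (by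
      rw [hm _ _ (pos N hN), pow_zero, mul_one]
      exact Int.mod_modEq _ _) (by
      have a := hm (U.eval (B : ℤ)) _ (pos N hN)
      have b := Int.emod_lt_of_pos (U.eval (B : ℤ)) (b := ((B ^ N - 1 : ℕ) : ℤ))
        (by exact_mod_cast pos N hN)
      omega) j (Nat.zero_le _) (by omega)
  exact ⟨y, h1, h2.trans (pack_tab U G B N ρ (by omega) hρ dU _), h3⟩

theorem bd_of_tab (F U G : ℤ[X]) (N q D hU hG hT : ℕ) (hN : 0 < N) (hq : N ≤ q)
    (dU : U.natDegree < 2 * N) (dG : G.natDegree < D) (bU : Bd U hU) (bG : Bd G hG)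
    (h : F * (X ^ N - 1) = U * expand ℤ q G)
    (hT' : ∀ j < D, ∀ u < N, |tab U G N (q % N) (j + 1) u| ≤ hT) :
    Bd F ((hT + hG * hU : ℕ) : ℤ) := by
  intro m
  have hall : ∀ j, ∀ u < N, |tab U G N (q % N) (j + 1) u| ≤ hT := by
    intro j
    induction j with
    | zero => exact hT' 0 (by omega)
    | succ j ih =>
      intro u hu
      by_cases hj : j + 1 < D
      · exact hT' _ hj u hu
      · have := ih u hu
        rw [tab] at this ⊢
        rw [sum_range_succ, coeff_eq_zero_of_natDegree_lt (p := G) (n := j + 1) (by omega),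
          zero_mul, add_zero]
        exact this
  have e : m = m / q * q + m % q := (Nat.div_add_mod' m q).symm
  rw [e, coeff_block F U G N q hN hq dU h _ _ (Nat.mod_lt _ (by omega))]
  refine (abs_add_le _ _).trans ?_
  rw [abs_neg, Nat.cast_add, Nat.cast_mul]
  refine add_le_add (hall _ _ (Nat.mod_lt _ hN)) ?_
  split_ifs
  · rw [abs_mul]
    exact mul_le_mul (bG _) (bU _) (abs_nonneg _) (Int.natCast_nonneg _)
  · rw [abs_zero]
    positivity

end Pool.Agent.P.MP_7b9a49_nt.Fam
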