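import Pool.Agent.P.MP_7b9a49_nt.FamCoef

namespace Pool.Agent.P.MP_7b9a49_nt.Fam

open Polynomial

def v1 : List ℕ := [3, 5, 13, 19]
def v2 : List ℕ := [15, 39, 57, 65, 95, 247]
def v3 : List ℕ := [195, 285, 741, 1235]
def kA : List ℕ := v2 ++ v2 ++ List.replicate 8 1
def kB : List ℕ := v3 ++ v1 ++ v1 ++ v1 ++ v1
def tO : Finset ℕ := (v1 ++ v3).toFinset
def tE : Finset ℕ := (1 :: 3705 :: v2).toFinset
def b0 : ℕ := 2 ^ (83 + 1)
def eO : ℤ := prN b0 kB / prN b0 kA
def eE : ℤ := prN b0 (3705 :: kA) / prN b0 kB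
def hT : ℕ := 4342380363532243647171
def hG : ℕ := 1423032
def hU : ℕ := 444788190727535
def cMo : ℕ := b0 ^ 3705 - 1
def cK : ℕ := (2 ^ 83 - 1 - hT) * ((b0 ^ 3705 - 1) / (b0 - 1))
def cM : ℕ := 2 ^ 83 * ((b0 ^ 3705 - 1) / (b0 - 1))
def dig (y j : ℕ) : ℕ := (y + cK) % cMo / b0 ^ j % b0
def pO (_ y : ℕ) : Bool := rowOK cMo cK cM y
def pE (j y : ℕ) : Bool := rowOK cMo cK cM y && (j != 776 ||
  Nat.blt (hT + hG * hU + 5 * (2 ^ 83 - 1 - hT))
    (dig y 596 + dig y 595 + dig y 594 + dig y 593 + dig y 592))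

noncomputable def AO : ℤ[X] := ∏ d ∈ tO, cyclotomic d ℤ
noncomputable def AE : ℤ[X] := ∏ d ∈ tE, cyclotomic d ℤ

theorem filt_odd : (3705 : ℕ).divisors.filter (fun d => Odd d.primeFactors.card) = tO := by
  decide +kernel

theorem filt_even : (3705 : ℕ).divisors.filter (fun d => Even d.primeFactors.card) = tE := by
  decide +kernel

theorem AO_pr : AO * pr kA = pr kB := by
  apply sub_mul_pr 3705 (by norm_num) <;> decide +kernel

theorem AE_pr : AE * pr kB = pr (3705 :: kA) := by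
  apply sub_mul_pr 3705 (by norm_num) <;> decide +kernel

theorem pr_append (a b : List ℕ) : pr (a ++ b) = pr a * pr b := by
  simp [pr]

theorem sq_pr {P : ℤ[X]} {a b : List ℕ} (h : P * pr a = pr b) :
    P * P * pr (a ++ a) = pr (b ++ b) := by
  rw [pr_append, pr_append, ← h]
  ring

/-- All conditions of the identification in one test. -/
def idOK (num den : List ℕ) (B h d : ℕ) : Bool :=
  force ((prN B num / prN B den).toNat + h * rep B d) fun N =>
    decide (∀ k ∈ den, 0 < k) && chk B h d N &&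
      decide (2 ^ den.length * h + 2 ^ num.length < B) &&
      decide (((N : ℤ) - h * rep B d) * prN B den = prN B num)

theorem bd_of_idOK (P : ℤ[X]) (num den : List ℕ) (B h d : ℕ) (hP : P * pr den = pr num)
    (hc : idOK num den B h d = true) : Bd P h := by
  simp only [idOK, force_eq, Bool.and_eq_true, decide_eq_true_eq] at hc
  obtain ⟨⟨⟨h1, h2⟩, h3⟩, h4⟩ := hc
  rw [identify P num den B h d _ hP h1 h2 h3 h4]
  intro i
  rw [coeff_poly]
  exact chk_bd _ _ _ _ h2 i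

theorem bd_AO : Bd AO hG := bd_of_idOK _ _ _ (2 ^ 128) hG 11 AO_pr (by decide +kernel)
theorem bd_AE : Bd AE hG := bd_of_idOK _ _ _ (2 ^ 128) hG 12 AE_pr (by decide +kernel)
theorem bd_UO : Bd (AO * AO) hU :=
  bd_of_idOK _ _ _ (2 ^ 128) hU 12 (sq_pr AO_pr) (by decide +kernel)
theorem bd_UE : Bd (AE * AE) hU :=
  bd_of_idOK _ _ _ (2 ^ 128) hU 13 (sq_pr AE_pr) (by decide +kernel)

theorem eval_of_pr {P : ℤ[X]} {a b : List ℕ} (B : ℕ) (h : P * pr a = pr b) (h0 : prN B a ≠ 0) :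
    P.eval (B : ℤ) = prN B b / prN B a := by
  have := congrArg (eval (B : ℤ)) h
  rw [eval_mul, eval_pr, eval_pr] at this
  rw [← this, Int.mul_ediv_cancel _ h0]

theorem eval_AO : AO.eval (b0 : ℤ) = eO := eval_of_pr b0 AO_pr (by decide +kernel)
theorem eval_AE : AE.eval (b0 : ℤ) = eE := eval_of_pr b0 AE_pr (by decide +kernel)

theorem deg_AO : AO.natDegree = 1572 := by
  rw [AO, natDegree_prod_of_monic _ _ (fun d _ => cyclotomic.monic d ℤ)]
  simp only [natDegree_cyclotomic]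
  decide +kernel

theorem deg_AE : AE.natDegree = 2133 := by
  rw [AE, natDegree_prod_of_monic _ _ (fun d _ => cyclotomic.monic d ℤ)]
  simp only [natDegree_cyclotomic]
  decide +kernel

theorem AO_mul_AE : AO * AE = X ^ 3705 - 1 := by
  rw [AO, AE, ← filt_odd, ← filt_even, ← prod_cyclotomic_eq_X_pow_sub_one (by norm_num)]
  simp only [← Nat.not_odd_iff_even]
  exact Finset.prod_filter_mul_prod_filter_not _ _ _

end Pool.Agent.P.MP_7b9a49_nt.Fam
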