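import Pool.Agent.P.MP_7b9a49_nt.FamData

namespace Pool.Agent.P.MP_7b9a49_nt.Fam

theorem runE : run b0 3705 476 1573 hG pE eO (eE * eE) = true := by decide +kernel

end Pool.Agent.P.MP_7b9a49_nt.Fam
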