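import Pool.Agent.P.MP_7b9a49_nt.FamRunO
import Pool.Agent.P.MP_7b9a49_nt.FamRunE

namespace Pool.Agent.P.MP_7b9a49_nt.Fam

open Polynomial Finset

theorem dUO : (AO * AO).natDegree < 2 * 3705 := by
  have := natDegree_mul_le (p := AO) (q := AO)
  rw [deg_AO] at this
  omega

theorem dUE : (AE * AE).natDegree < 2 * 3705 := by
  have := natDegree_mul_le (p := AE) (q := AE)
  rw [deg_AE] at this
  omega

theorem tab_bd' {U G : ℤ[X]} (bU : Bd U hU) (bG : Bd G hG) (k : ℕ) (hk : k ≤ 2134) (u : ℕ) :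
    |tab U G 3705 476 k u| ≤ (2134 * (hG * (2 * hU)) : ℕ) :=
  (tab_bd U G 3705 476 hU hG bU bG k u).trans (by exact_mod_cast Nat.mul_le_mul_right _ hk)

theorem rowOK_bd' (f : ℕ → ℤ) (hf : ∀ u, |f u| ≤ (2134 * (hG * (2 * hU)) : ℕ)) (y : ℕ)
    (h1 : y ≤ b0 ^ 3705 - 1) (h2 : (y : ℤ) ≡ pack b0 3705 f [ZMOD ((b0 ^ 3705 - 1 : ℕ) : ℤ)])
    (h3 : rowOK cMo cK cM y = true) (u : ℕ) (hu : u < 3705) : |f u| ≤ hT := by
  unfold cMo cK cM at h3
  unfold b0 at h1 h2 h3
  exact rowOK_bd 83 3705 hT _ f (by norm_num) hf (by decide +kernel) y h1 h2 h3 u hu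

theorem rowsO (j : ℕ) (hj : j < 2134) (u : ℕ) (hu : u < 3705) :
    |tab (AO * AO) AE 3705 476 (j + 1) u| ≤ hT := by
  obtain ⟨y, h1, h2, h3⟩ := run_spec (AO * AO) AE b0 3705 476 2134 hG pO (by norm_num)
    (by norm_num) (by decide +kernel) dUO (by rw [deg_AE]; norm_num) bd_AE
    (by rw [eval_mul, eval_AO, eval_AE]; exact runO) j hj
  rw [pO] at h3
  exact rowOK_bd' _ (tab_bd' bd_UO bd_AE (j + 1) hj) y h1 h2 h3 u hu

theorem specE (j : ℕ) (hj : j < 1573) : ∃ y : ℕ, y ≤ b0 ^ 3705 - 1 ∧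
    (y : ℤ) ≡ pack b0 3705 (tab (AE * AE) AO 3705 476 (j + 1)) [ZMOD ((b0 ^ 3705 - 1 : ℕ) : ℤ)] ∧
    pE j y = true :=
  run_spec (AE * AE) AO b0 3705 476 1573 hG pE (by norm_num)
    (by norm_num) (by decide +kernel) dUE (by rw [deg_AO]; norm_num) bd_AO
    (by rw [eval_mul, eval_AO, eval_AE]; exact runE) j hj

theorem rowsE (j : ℕ) (hj : j < 1573) (u : ℕ) (hu : u < 3705) :
    |tab (AE * AE) AO 3705 476 (j + 1) u| ≤ hT := by
  obtain ⟨y, h1, h2, h3⟩ := specE j hj
  rw [pE, Bool.and_eq_true] at h3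
  exact rowOK_bd' _ (tab_bd' bd_UE bd_AO (j + 1) (by omega)) y h1 h2 h3.1 u hu

theorem bigE : ((hT + hG * hU : ℕ) : ℤ) <
    tab (AE * AE) AO 3705 476 777 596 + tab (AE * AE) AO 3705 476 777 595 +
    tab (AE * AE) AO 3705 476 777 594 + tab (AE * AE) AO 3705 476 777 593 +
    tab (AE * AE) AO 3705 476 777 592 := by
  obtain ⟨y, _, h2, h3⟩ := specE 776 (by norm_num)
  rw [pE, Bool.and_eq_true] at h3
  have h4 := h3.2
  simp only [bne_self_eq_false, Bool.false_or, Nat.blt_eq] at h4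
  have hd : ∀ j < 3705, ((dig y j : ℕ) : ℤ) =
      tab (AE * AE) AO 3705 476 777 j + ((2 ^ 83 - 1 - hT : ℕ) : ℤ) := fun j hj =>
    digit b0 3705 (2 ^ 83 - 1 - hT) _ _ (tab_bd' bd_UE bd_AO 777 (by norm_num))
      (by decide +kernel) (by decide +kernel) y h2 j hj
  have a1 := hd 596 (by norm_num)
  have a2 := hd 595 (by norm_num)
  have a3 := hd 594 (by norm_num)
  have a4 := hd 593 (by norm_num)
  have a5 := hd 592 (by norm_num)
  generalize 2 ^ 83 - 1 - hT = K at *
  generalize hT + hG * hU = H at *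
  omega

theorem prod_split (N q : ℕ) (hN : N ≠ 0) (hq : q.Prime) (hqN : ¬ q ∣ N) (P Q : ℕ → Prop)
    [DecidablePred P] [DecidablePred Q] (hPQ : ∀ c, P (c + 1) ↔ Q c) :
    (∏ d ∈ (N * q).divisors.filter (fun d => P d.primeFactors.card), cyclotomic d ℤ) *
      ∏ d ∈ N.divisors.filter (fun d => Q d.primeFactors.card), cyclotomic d ℤ =
    (∏ d ∈ N.divisors.filter (fun d => P d.primeFactors.card), cyclotomic d ℤ) *
      expand ℤ q (∏ d ∈ N.divisors.filter (fun d => Q d.primeFactors.card), cyclotomic d ℤ) := by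
  have hcard : ∀ d, d ∣ N → (d * q).primeFactors.card = d.primeFactors.card + 1 := by
    intro d hd
    have hd0 : d ≠ 0 := ne_zero_of_dvd_ne_zero hN hd
    rw [Nat.primeFactors_mul hd0 hq.ne_zero, hq.primeFactors, union_comm, ← insert_eq,
      card_insert_of_notMem]
    intro h
    exact hqN ((Nat.dvd_of_mem_primeFactors h).trans hd)
  have hset : (N * q).divisors.filter (fun d => P d.primeFactors.card) =
      N.divisors.filter (fun d => P d.primeFactors.card) ∪
        (N.divisors.filter (fun d => Q d.primeFactors.card)).image (· * q) := by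
    ext d
    simp only [mem_filter, Nat.mem_divisors, mem_union, mem_image]
    constructor
    · rintro ⟨⟨h1, _⟩, h2⟩
      by_cases h3 : q ∣ d
      · obtain ⟨e, rfl⟩ := h3
        rw [mul_comm q e] at h1 h2 ⊢
        have h4 := Nat.dvd_of_mul_dvd_mul_right hq.pos h1
        rw [hcard e h4, hPQ] at h2
        exact Or.inr ⟨e, ⟨⟨h4, hN⟩, h2⟩, rfl⟩
      · exact Or.inl ⟨⟨((hq.coprime_iff_not_dvd.2 h3).symm).dvd_of_dvd_mul_right h1, hN⟩, h2⟩
    · rintro (⟨⟨h1, _⟩, h2⟩ | ⟨e, ⟨⟨h1, _⟩, h2⟩, rfl⟩)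
      · exact ⟨⟨h1.mul_right q, mul_ne_zero hN hq.ne_zero⟩, h2⟩
      · exact ⟨⟨Nat.mul_dvd_mul_right h1 q, mul_ne_zero hN hq.ne_zero⟩,
          by rw [hcard e h1, hPQ]; exact h2⟩
  rw [hset, prod_union, prod_image, mul_assoc, ← prod_mul_distrib, map_prod]
  · congr 1
    refine prod_congr rfl fun d hd => ?_
    rw [cyclotomic_expand_eq_cyclotomic_mul hq]
    intro h
    exact hqN (h.trans (Nat.dvd_of_mem_divisors (mem_filter.1 hd).1))
  · intro a _ b _ h
    exact Nat.eq_of_mul_eq_mul_right hq.pos h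
  · rw [disjoint_left]
    intro d h1 h2
    obtain ⟨e, _, rfl⟩ := mem_image.1 h2
    exact hqN ((dvd_mul_left q e).trans (Nat.dvd_of_mem_divisors (mem_filter.1 h1).1))

theorem core (q : ℕ) (h1 : 5425 < q) (h2 : q % 3705 = 476) (FO FE : ℤ[X])
    (e1 : FO * AE = AO * expand ℤ q AE) (e2 : FE * AO = AE * expand ℤ q AO) :
    height FO < height (cyclotomic 5 ℤ * FE) ∧ height FE < height (cyclotomic 5 ℤ * FE) := by
  have gO : FO * (X ^ 3705 - 1) = AO * AO * expand ℤ q AE := by
    rw [← AO_mul_AE]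
    linear_combination AO * e1
  have gE : FE * (X ^ 3705 - 1) = AE * AE * expand ℤ q AO := by
    rw [← AO_mul_AE]
    linear_combination AE * e2
  have bO := bd_of_tab FO (AO * AO) AE 3705 q 2134 hU hG hT (by norm_num) (by omega) dUO
    (by rw [deg_AE]; norm_num) bd_UO bd_AE gO (by rw [h2]; exact rowsO)
  have bE := bd_of_tab FE (AE * AE) AO 3705 q 1573 hU hG hT (by norm_num) (by omega) dUE
    (by rw [deg_AO]; norm_num) bd_UE bd_AO gE (by rw [h2]; exact rowsE)
  have cE : ∀ s u, 3705 ≤ s → s < q → (776 * q + s) % 3705 = u →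
      FE.coeff (776 * q + s) = -tab (AE * AE) AO 3705 476 777 u := by
    intro s u a b c
    rw [coeff_block FE (AE * AE) AO 3705 q (by norm_num) (by omega) dUE gE 776 s b, h2, c,
      if_neg (by omega), add_zero]
  have hbig : hT + hG * hU < height (cyclotomic 5 ℤ * FE) := by
    refine lt_height (776 * q + 5425) ?_
    have : Fact (Nat.Prime 5) := ⟨Nat.prime_five⟩
    rw [cyclotomic_prime, mul_comm _ FE, mul_sum, finsetSum_coeff]
    simp only [coeff_mul_X_pow', sum_range_succ, sum_range_zero]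
    rw [if_pos (by omega), if_pos (by omega), if_pos (by omega), if_pos (by omega),
      if_pos (by omega),
      show 776 * q + 5425 - 0 = 776 * q + 5425 by omega,
      show 776 * q + 5425 - 1 = 776 * q + 5424 by omega,
      show 776 * q + 5425 - 2 = 776 * q + 5423 by omega,
      show 776 * q + 5425 - 3 = 776 * q + 5422 by omega,
      show 776 * q + 5425 - 4 = 776 * q + 5421 by omega,
      cE 5425 596 (by omega) (by omega) (by omega), cE 5424 595 (by omega) (by omega) (by omega),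
      cE 5423 594 (by omega) (by omega) (by omega), cE 5422 593 (by omega) (by omega) (by omega),
      cE 5421 592 (by omega) (by omega) (by omega)]
    refine lt_of_lt_of_le bigE (le_trans (le_of_eq ?_) (neg_le_abs _))
    ring
  exact ⟨lt_of_le_of_lt (height_le bO) hbig, lt_of_le_of_lt (height_le bE) hbig⟩

theorem family (q : ℕ) (hq : q.Prime) (h1 : 5425 < q) (h2 : q % 3705 = 476) :
    ∃ f : ℤ[X], f ∣ X ^ (3705 * q) - 1 ∧
      height (∏ d ∈ (3705 * q).divisors.filter (fun d => Odd d.primeFactors.card),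
        cyclotomic d ℤ) < height f ∧
      height (∏ d ∈ (3705 * q).divisors.filter (fun d => Even d.primeFactors.card),
        cyclotomic d ℤ) < height f := by
  have hqN : ¬ q ∣ 3705 := fun h => by
    have := Nat.le_of_dvd (by norm_num) h
    omega
  have e1 := prod_split 3705 q (by norm_num) hq hqN Odd Even
    (fun c => by rw [Nat.odd_add_one, Nat.not_odd_iff_even])
  have e2 := prod_split 3705 q (by norm_num) hq hqN Even Odd
    (fun c => by rw [Nat.even_add_one, Nat.not_even_iff_odd])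
  rw [filt_odd, filt_even, ← AO, ← AE] at e1 e2
  have hsub : insert 5 ((3705 * q).divisors.filter (fun d => Even d.primeFactors.card)) ⊆
      (3705 * q).divisors := by
    refine insert_subset ?_ (filter_subset _ _)
    exact Nat.mem_divisors.2 ⟨Dvd.dvd.mul_right (by norm_num) q, by omega⟩
  have h5 : 5 ∉ (3705 * q).divisors.filter (fun d => Even d.primeFactors.card) := by
    intro h
    have := (mem_filter.1 h).2
    rw [Nat.prime_five.primeFactors] at this
    simp at this
  have hdvd := prod_dvd_prod_of_subset _ _ (fun d => cyclotomic d ℤ) hsub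
  rw [prod_cyclotomic_eq_X_pow_sub_one (by omega), prod_insert h5] at hdvd
  exact ⟨_, hdvd, core q h1 h2 _ _ e1 e2⟩

theorem infinite : Set.Infinite {n : ℕ | Odd n ∧ Squarefree n ∧ n.primeFactors.card = 5 ∧
    ∃ f : ℤ[X], f ∣ X ^ n - 1 ∧
      height (∏ d ∈ n.divisors.filter (fun d => Odd d.primeFactors.card), cyclotomic d ℤ)
        < height f ∧
      height (∏ d ∈ n.divisors.filter (fun d => Even d.primeFactors.card), cyclotomic d ℤ)
        < height f} := by
  refine Set.infinite_of_forall_exists_gt fun a => ?_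
  obtain ⟨q, h1, hq, h2⟩ := Nat.forall_exists_prime_gt_and_modEq (a + 5425) (q := 3705) (a := 476)
    (by norm_num) (by norm_num)
  have h3 : q % 3705 = 476 := h2
  have hqN : ¬ q ∣ 3705 := fun h => by
    have := Nat.le_of_dvd (by norm_num) h
    omega
  refine ⟨3705 * q, ⟨?_, ?_, ?_, family q hq (by omega) h3⟩, by omega⟩
  · exact Odd.mul (by decide) (hq.odd_of_ne_two (by omega))
  · exact Nat.squarefree_mul_iff.2 ⟨(hq.coprime_iff_not_dvd.2 hqN).symm, by decide +kernel,
      hq.squarefree⟩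
  · rw [Nat.primeFactors_mul (by norm_num) hq.ne_zero, hq.primeFactors, union_comm, ← insert_eq,
      card_insert_of_notMem (fun h => hqN (Nat.dvd_of_mem_primeFactors h))]
    decide +kernel

end Pool.Agent.P.MP_7b9a49_nt.Fam
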