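import Pool.Agent.P.MP_7b9a49_nt.Kron

namespace Pool.Agent.P.MP_7b9a49_nt.Fam

open Finset

/-- A sequence packed in base `B`. -/
def pack (B n : ℕ) (f : ℕ → ℤ) : ℤ := ∑ u ∈ range n, f u * (B : ℤ) ^ u

theorem nat_digits (B : ℕ) (d : ℕ → ℕ) (hd : ∀ u, d u + 2 ≤ B) (n : ℕ) :
    (∑ u ∈ range n, d u * B ^ u) + 1 ≤ B ^ n ∧
    (0 < n → (∑ u ∈ range n, d u * B ^ u) + 2 ≤ B ^ n) ∧
    ∀ j < n, (∑ u ∈ range n, d u * B ^ u) / B ^ j % B = d j := by
  have hB : 0 < B := by have := hd 0; omega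
  induction n with
  | zero => simp
  | succ n ih =>
    obtain ⟨h1, _, h3⟩ := ih
    have hp : 0 < B ^ n := pow_pos hB n
    have h4 : (d n + 2) * B ^ n ≤ B * B ^ n := Nat.mul_le_mul_right _ (hd n)
    rw [sum_range_succ, pow_succ]
    refine ⟨by nlinarith, fun _ => by nlinarith, fun j hj => ?_⟩
    rcases Nat.lt_succ_iff_lt_or_eq.1 hj with hj | rfl
    · obtain ⟨e, rfl⟩ : ∃ e, n = j + 1 + e := ⟨n - (j + 1), by omega⟩
      have : d (j + 1 + e) * B ^ (j + 1 + e) = (d (j + 1 + e) * B ^ e * B) * B ^ j := by ring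
      rw [this, Nat.add_mul_div_right _ _ (pow_pos hB j), Nat.add_mul_mod_self_right]
      exact h3 j hj
    · rw [Nat.add_mul_div_right _ _ hp, Nat.div_eq_of_lt (by omega), zero_add]
      exact Nat.mod_eq_of_lt (by have := hd j; omega)

theorem digit (B n K M : ℕ) (f : ℕ → ℤ) (hf : ∀ u, |f u| ≤ M) (hM : M ≤ K) (hK : K + M + 2 ≤ B)
    (y : ℕ) (hy : (y : ℤ) ≡ pack B n f [ZMOD ((B ^ n - 1 : ℕ) : ℤ)]) (j : ℕ) (hj : j < n) :
    (((y + K * ((B ^ n - 1) / (B - 1))) % (B ^ n - 1) / B ^ j % B : ℕ) : ℤ) = f j + K := by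
  have hd0 : ∀ u, (((f u + K).toNat : ℕ) : ℤ) = f u + K := fun u => by
    have := abs_le.1 (hf u)
    omega
  have hd : ∀ u, (f u + K).toNat + 2 ≤ B := fun u => by
    have := abs_le.1 (hf u)
    have := hd0 u
    omega
  obtain ⟨_, h2, h3⟩ := nat_digits B (fun u => (f u + K).toNat) hd n
  have h2' := h2 (by omega)
  rw [← hd0 j, ← h3 j hj]
  congr 3
  rw [← Nat.geomSum_eq (by omega) n]
  set S := ∑ u ∈ range n, (f u + K).toNat * B ^ u with hS
  have hS' : (S : ℤ) = pack B n f + K * ((∑ k ∈ range n, B ^ k : ℕ) : ℤ) := by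
    rw [hS, pack]
    push_cast
    rw [mul_sum, ← sum_add_distrib]
    refine sum_congr rfl fun u _ => ?_
    rw [hd0]
    ring
  have h4 : (y + K * ∑ k ∈ range n, B ^ k) ≡ S [MOD (B ^ n - 1)] := by
    rw [← Int.natCast_modEq_iff, hS', Nat.cast_add, Nat.cast_mul]
    exact hy.add_right _
  rw [h4]
  exact Nat.mod_eq_of_lt (by omega)

theorem mask_digit (b n w j : ℕ) (hb : 1 ≤ b) (hj : j < n)
    (h : w &&& (2 ^ b * (((2 ^ (b + 1)) ^ n - 1) / (2 ^ (b + 1) - 1))) = 0) :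
    w / (2 ^ (b + 1)) ^ j % 2 ^ (b + 1) < 2 ^ b := by
  have h2 : 2 ≤ 2 ^ b := by
    calc 2 = 2 ^ 1 := rfl
      _ ≤ 2 ^ b := Nat.pow_le_pow_right (by norm_num) hb
  have hB : 2 ^ b + 2 ≤ 2 ^ (b + 1) := by rw [pow_succ]; omega
  obtain ⟨_, _, h3⟩ := nat_digits (2 ^ (b + 1)) (fun _ => 2 ^ b) (fun _ => hB) n
  have h4 := h3 j hj
  rw [← Nat.geomSum_eq (by omega) n, mul_sum] at h
  have h5 := congrArg (fun t => t / (2 ^ (b + 1)) ^ j % 2 ^ (b + 1)) h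
  simp only [Nat.zero_div, Nat.zero_mod] at h5
  rw [← pow_mul, Nat.and_div_two_pow, Nat.and_mod_two_pow, pow_mul, h4, Nat.and_two_pow] at h5
  apply Nat.lt_pow_two_of_testBit
  intro i hi
  rcases Nat.eq_or_lt_of_le hi with rfl | hi
  · cases ht : (w / (2 ^ (b + 1)) ^ j % 2 ^ (b + 1)).testBit b
    · rfl
    · rw [ht] at h5
      simp at h5
  · apply Nat.testBit_lt_two_pow
    exact lt_of_lt_of_le (Nat.mod_lt _ (by positivity)) (Nat.pow_le_pow_right (by norm_num) hi)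

/-- Check that all packed digits lie in the window. -/
def rowOK (Mo KR mask y : ℕ) : Bool :=
  ((y + KR) % Mo &&& mask == 0) && ((Mo - y + KR) % Mo &&& mask == 0)

theorem rowOK_bd (b n h M : ℕ) (f : ℕ → ℤ) (hb : 1 ≤ b) (hf : ∀ u, |f u| ≤ M)
    (hM : M + h + 2 ≤ 2 ^ b) (y : ℕ) (hy0 : y ≤ (2 ^ (b + 1)) ^ n - 1)
    (hy : (y : ℤ) ≡ pack (2 ^ (b + 1)) n f [ZMOD (((2 ^ (b + 1)) ^ n - 1 : ℕ) : ℤ)])
    (hr : rowOK ((2 ^ (b + 1)) ^ n - 1)
      ((2 ^ b - 1 - h) * (((2 ^ (b + 1)) ^ n - 1) / (2 ^ (b + 1) - 1)))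
      (2 ^ b * (((2 ^ (b + 1)) ^ n - 1) / (2 ^ (b + 1) - 1))) y = true) (j : ℕ) (hj : j < n) :
    |f j| ≤ h := by
  simp only [rowOK, Bool.and_eq_true, beq_iff_eq] at hr
  have e : 2 ^ (b + 1) = 2 * 2 ^ b := by rw [pow_succ]; omega
  have a1 := mask_digit b n _ j hb hj hr.1
  have a2 := mask_digit b n _ j hb hj hr.2
  have b1 := digit (2 ^ (b + 1)) n (2 ^ b - 1 - h) M f hf (by omega) (by omega) y hy j hj
  have b2 := digit (2 ^ (b + 1)) n (2 ^ b - 1 - h) M (fun u => -f u) (by simpa using hf)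
    (by omega) (by omega) ((2 ^ (b + 1)) ^ n - 1 - y) (by
      rw [Nat.cast_sub hy0]
      have : pack (2 ^ (b + 1)) n (fun u => -f u) = 0 - pack (2 ^ (b + 1)) n f := by
        simp [pack]
      rw [this]
      exact Int.ModEq.sub (Int.modEq_zero_iff_dvd.2 dvd_rfl) hy) j hj
  rw [abs_le]
  omega

theorem pack_shift (B N : ℕ) (hB : 0 < B) (c : ℕ → ℤ) (hc : ∀ u, c (u + N) = c u) (a : ℕ) :
    pack B N (fun u => c (u + a)) * (B : ℤ) ^ a ≡ pack B N c [ZMOD ((B ^ N - 1 : ℕ) : ℤ)] := by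
  have hM : ((B ^ N - 1 : ℕ) : ℤ) = (B : ℤ) ^ N - 1 := by
    rw [Nat.cast_sub (Nat.one_le_pow _ _ hB)]; simp
  induction a with
  | zero => simp
  | succ a ih =>
    have h1 : pack B N (fun u => c (u + (a + 1))) * B =
        pack B N (fun u => c (u + a)) + c a * ((B : ℤ) ^ N - 1) := by
      have e1 := sum_range_succ (fun u => c (u + a) * (B : ℤ) ^ u) N
      have e2 := sum_range_succ' (fun u => c (u + a) * (B : ℤ) ^ u) N
      have e3 : c (N + a) = c a := by rw [add_comm, hc]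
      have e4 : pack B N (fun u => c (u + (a + 1))) * B =
          ∑ k ∈ range N, c (k + 1 + a) * (B : ℤ) ^ (k + 1) := by
        rw [pack, sum_mul]
        refine sum_congr rfl fun u _ => ?_
        rw [show u + (a + 1) = u + 1 + a by omega]
        ring
      rw [e4, pack]
      simp only [zero_add, pow_zero, mul_one, e3] at e1 e2
      linear_combination e1 - e2
    have h2 : pack B N (fun u => c (u + (a + 1))) * (B : ℤ) ^ (a + 1) =
        pack B N (fun u => c (u + a)) * (B : ℤ) ^ a + ((B : ℤ) ^ N - 1) * (c a * B ^ a) := by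
      linear_combination (B : ℤ) ^ a * h1
    rw [h2, ← hM]
    exact (Int.modEq_iff_dvd.2 ⟨-(c a * B ^ a), by ring⟩).trans ih

theorem pack_rot (B N ρ : ℕ) (hB : 0 < B) (hρ : ρ ≤ N) (c : ℕ → ℤ) (hc : ∀ u, c (u + N) = c u)
    (i : ℕ) : pack B N (fun u => c (u + i * (N - ρ))) ≡ pack B N c * ((B : ℤ) ^ ρ) ^ i
      [ZMOD ((B ^ N - 1 : ℕ) : ℤ)] := by
  have hM : ((B ^ N - 1 : ℕ) : ℤ) = (B : ℤ) ^ N - 1 := by
    rw [Nat.cast_sub (Nat.one_le_pow _ _ hB)]; simp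
  have h1 := (pack_shift B N hB c hc (i * (N - ρ))).mul_right (((B : ℤ) ^ ρ) ^ i)
  refine Int.ModEq.trans ?_ h1
  have h2 : (B : ℤ) ^ (i * (N - ρ)) * ((B : ℤ) ^ ρ) ^ i = ((B : ℤ) ^ N) ^ i := by
    rw [← pow_mul, ← pow_mul, ← pow_add]
    congr 1
    obtain ⟨e, rfl⟩ := Nat.exists_eq_add_of_le hρ
    rw [Nat.add_sub_cancel_left]
    ring
  rw [mul_assoc, h2]
  have h3 : (1 : ℤ) ≡ (B : ℤ) ^ N [ZMOD ((B ^ N - 1 : ℕ) : ℤ)] :=
    Int.modEq_iff_dvd.2 (by rw [hM])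
  have h4 := (h3.pow i).mul_left (pack B N (fun u => c (u + i * (N - ρ))))
  simpa using h4

/-- Evaluate the first argument before going on. -/
def force (a : ℕ) (f : ℕ → Bool) : Bool :=
  match a with
  | 0 => f 0
  | b + 1 => f (b + 1)

theorem force_eq (a : ℕ) (f : ℕ → Bool) : force a f = f a := by
  cases a <;> rfl

/-- The row recursion. -/
def loop (B Mo hG Br : ℕ) (p : ℕ → ℕ → Bool) : ℕ → ℕ → ℕ → ℕ → ℕ → Bool
  | 0, _, _, _, _ => true
  | n + 1, k, x, y, z =>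
    force ((y + x % B * z + hG * (Mo - z)) % Mo) fun y' => p k y' &&
      force (x / B) fun x' => force (z * Br % Mo) fun z' => force (k + 1) fun k' =>
        loop B Mo hG Br p n k' x' y' z'

theorem loop_spec (B Mo hG Br D X : ℕ) (p : ℕ → ℕ → Bool) (g : ℕ → ℤ) (E : ℤ) (hMo : 0 < Mo)
    (hX : ∀ j < D, ((X / B ^ j % B : ℕ) : ℤ) = g j + hG) :
    ∀ n k x y z : ℕ, loop B Mo hG Br p n k x y z = true → k + n ≤ D → x = X / B ^ k →
      (y : ℤ) ≡ ∑ i ∈ range k, g i * (E * (Br : ℤ) ^ i) [ZMOD Mo] →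
      (z : ℤ) ≡ E * (Br : ℤ) ^ k [ZMOD Mo] → z ≤ Mo → ∀ j, k ≤ j → j < k + n →
      ∃ y' : ℕ, y' ≤ Mo ∧ (y' : ℤ) ≡ ∑ i ∈ range (j + 1), g i * (E * (Br : ℤ) ^ i) [ZMOD Mo] ∧
        p j y' = true := by
  intro n
  induction n with
  | zero => intro k x y z _ _ _ _ _ _ j h1 h2; omega
  | succ n ih =>
    intro k x y z hl hk hx hy hz hzM j h1 h2
    simp only [loop, force_eq, Bool.and_eq_true] at hl
    have hy' : (((y + x % B * z + hG * (Mo - z)) % Mo : ℕ) : ℤ) ≡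
        ∑ i ∈ range (k + 1), g i * (E * (Br : ℤ) ^ i) [ZMOD Mo] := by
      rw [Int.natCast_mod, sum_range_succ]
      refine (Int.mod_modEq _ _).trans ?_
      rw [Nat.cast_add, Nat.cast_add, Nat.cast_mul, Nat.cast_mul, Nat.cast_sub hzM, hx,
        hX k (by omega)]
      have e : (y : ℤ) + (g k + hG) * z + hG * (Mo - z) = y + g k * z + Mo * hG := by ring
      rw [e]
      exact (Int.modEq_iff_dvd.2 ⟨-hG, by ring⟩).trans (hy.add (hz.mul_left _))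
    rcases Nat.eq_or_lt_of_le h1 with rfl | h1
    · exact ⟨_, (Nat.mod_lt _ hMo).le, hy', hl.1⟩
    · refine ih (k + 1) _ _ _ hl.2 (by omega) ?_ hy' ?_ (Nat.mod_lt _ hMo).le j h1 (by omega)
      · rw [hx, Nat.div_div_eq_div_mul, pow_succ]
      · rw [Int.natCast_mod]
        refine (Int.mod_modEq _ _).trans ?_
        rw [Nat.cast_mul, pow_succ, ← mul_assoc]
        exact hz.mul_right _

end Pool.Agent.P.MP_7b9a49_nt.Fam
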