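import Pool.Agent.P.MP_7b9a49_nt.FamMain

namespace Pool.Agent.P.MP_7b9a49_nt.Four

open Polynomial

def kA : List ℕ := [21, 123, 287, 1, 1, 1, 1]
def kB : List ℕ := [3, 7, 41, 3, 7, 41]
def tO : Finset ℕ := [3, 7, 41, 861].toFinset
def tE : Finset ℕ := [1, 21, 123, 287].toFinset
def b0 : ℕ := 2 ^ (40 + 1)
def eO : ℤ := prN b0 (861 :: kB) / prN b0 kA
def eE : ℤ := prN b0 kA / prN b0 kB
def hTO : ℕ := 18521247
def hTE : ℕ := 35373969
def cMo : ℕ := b0 ^ 861 - 1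
def cK (h : ℕ) : ℕ := (2 ^ 40 - 1 - h) * ((b0 ^ 861 - 1) / (b0 - 1))
def cM : ℕ := 2 ^ 40 * ((b0 ^ 861 - 1) / (b0 - 1))
def dig (y j : ℕ) : ℕ := (y + cK hTE) % cMo / b0 ^ j % b0
def pO (_ y : ℕ) : Bool := Fam.rowOK cMo (cK hTO) cM y
def pE (j y : ℕ) : Bool := Fam.rowOK cMo (cK hTE) cM y && (j != 272 ||
  Nat.blt (hTE + 7 * (2 ^ 40 - 1 - hTE))
    (dig y 150 + dig y 149 + dig y 148 + dig y 147 + dig y 146 + dig y 145 + dig y 144))

noncomputable def AO : ℤ[X] := ∏ d ∈ tO, cyclotomic d ℤ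
noncomputable def AE : ℤ[X] := ∏ d ∈ tE, cyclotomic d ℤ

theorem filt_odd : (861 : ℕ).divisors.filter (fun d => Odd d.primeFactors.card) = tO := by
  decide +kernel

theorem filt_even : (861 : ℕ).divisors.filter (fun d => Even d.primeFactors.card) = tE := by
  decide +kernel

theorem AO_pr : AO * pr kA = pr (861 :: kB) := by
  apply sub_mul_pr 861 (by norm_num) <;> decide +kernel

theorem AE_pr : AE * pr kB = pr kA := by
  apply sub_mul_pr 861 (by norm_num) <;> decide +kernel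

theorem bd_AO : Bd AO (59 : ℕ) := Fam.bd_of_idOK _ _ _ (2 ^ 64) 59 10 AO_pr (by decide +kernel)
theorem bd_AE : Bd AE (42 : ℕ) := Fam.bd_of_idOK _ _ _ (2 ^ 64) 42 9 AE_pr (by decide +kernel)
theorem bd_UO : Bd (AO * AO) (323951 : ℕ) :=
  Fam.bd_of_idOK _ _ _ (2 ^ 64) 323951 11 (Fam.sq_pr AO_pr) (by decide +kernel)
theorem bd_UE : Bd (AE * AE) (109370 : ℕ) :=
  Fam.bd_of_idOK _ _ _ (2 ^ 64) 109370 10 (Fam.sq_pr AE_pr) (by decide +kernel)

theorem eval_AO : AO.eval (b0 : ℤ) = eO := Fam.eval_of_pr b0 AO_pr (by decide +kernel)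
theorem eval_AE : AE.eval (b0 : ℤ) = eE := Fam.eval_of_pr b0 AE_pr (by decide +kernel)

theorem deg_AO : AO.natDegree = 528 := by
  rw [AO, natDegree_prod_of_monic _ _ (fun d _ => cyclotomic.monic d ℤ)]
  simp only [natDegree_cyclotomic]
  decide +kernel

theorem deg_AE : AE.natDegree = 333 := by
  rw [AE, natDegree_prod_of_monic _ _ (fun d _ => cyclotomic.monic d ℤ)]
  simp only [natDegree_cyclotomic]
  decide +kernel

theorem AO_mul_AE : AO * AE = X ^ 861 - 1 := by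
  rw [AO, AE, ← filt_odd, ← filt_even, ← prod_cyclotomic_eq_X_pow_sub_one (by norm_num)]
  simp only [← Nat.not_odd_iff_even]
  exact Finset.prod_filter_mul_prod_filter_not _ _ _

theorem runE : Fam.run b0 861 97 529 59 pE eO (eE * eE) = true := by decide +kernel

theorem runO : Fam.run b0 861 97 334 42 pO eE (eO * eO) = true := by decide +kernel

end Pool.Agent.P.MP_7b9a49_nt.Four
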