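import Pool.Agent.P.MP_7b9a49_nt.FourData

namespace Pool.Agent.P.MP_7b9a49_nt.Four

open Polynomial Finset

theorem dUO : (AO * AO).natDegree < 2 * 861 := by
  have := natDegree_mul_le (p := AO) (q := AO)
  rw [deg_AO] at this
  omega

theorem dUE : (AE * AE).natDegree < 861 := by
  have := natDegree_mul_le (p := AE) (q := AE)
  rw [deg_AE] at this
  omega

theorem rowOK_bd' (h M : ℕ) (hM : M + h + 2 ≤ 2 ^ 40) (f : ℕ → ℤ) (hf : ∀ u, |f u| ≤ M) (y : ℕ)
    (h1 : y ≤ b0 ^ 861 - 1) (h2 : (y : ℤ) ≡ Fam.pack b0 861 f [ZMOD ((b0 ^ 861 - 1 : ℕ) : ℤ)])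
    (h3 : Fam.rowOK cMo (cK h) cM y = true) (u : ℕ) (hu : u < 861) : |f u| ≤ h := by
  unfold cMo cK cM at h3
  unfold b0 at h1 h2 h3
  exact Fam.rowOK_bd 40 861 h M f (by norm_num) hf hM y h1 h2 h3 u hu

theorem tabO_bd (k : ℕ) (hk : k ≤ 334) (u : ℕ) :
    |Fam.tab (AO * AO) AE 861 97 k u| ≤ (334 * (42 * (2 * 323951)) : ℕ) :=
  (Fam.tab_bd _ _ 861 97 323951 42 bd_UO bd_AE k u).trans
    (by exact_mod_cast Nat.mul_le_mul_right _ hk)

theorem tabE_bd (k : ℕ) (hk : k ≤ 529) (u : ℕ) :
    |Fam.tab (AE * AE) AO 861 97 k u| ≤ (529 * (59 * (2 * 109370)) : ℕ) :=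
  (Fam.tab_bd _ _ 861 97 109370 59 bd_UE bd_AO k u).trans
    (by exact_mod_cast Nat.mul_le_mul_right _ hk)

theorem rowsO (j : ℕ) (hj : j < 334) (u : ℕ) (hu : u < 861) :
    |Fam.tab (AO * AO) AE 861 97 (j + 1) u| ≤ hTO := by
  obtain ⟨y, h1, h2, h3⟩ := Fam.run_spec (AO * AO) AE b0 861 97 334 42 pO (by norm_num)
    (by norm_num) (by decide +kernel) dUO (by rw [deg_AE]; norm_num) bd_AE
    (by rw [eval_mul, eval_AO, eval_AE]; exact runO) j hj
  rw [pO] at h3
  exact rowOK_bd' hTO _ (by decide +kernel) _ (tabO_bd (j + 1) hj) y h1 h2 h3 u hu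

theorem specE (j : ℕ) (hj : j < 529) : ∃ y : ℕ, y ≤ b0 ^ 861 - 1 ∧
    (y : ℤ) ≡ Fam.pack b0 861 (Fam.tab (AE * AE) AO 861 97 (j + 1))
      [ZMOD ((b0 ^ 861 - 1 : ℕ) : ℤ)] ∧ pE j y = true :=
  Fam.run_spec (AE * AE) AO b0 861 97 529 59 pE (by norm_num)
    (by norm_num) (by decide +kernel) (by have := dUE; omega) (by rw [deg_AO]; norm_num) bd_AO
    (by rw [eval_mul, eval_AO, eval_AE]; exact runE) j hj

theorem rowsE (j : ℕ) (hj : j < 529) (u : ℕ) (hu : u < 861) :
    |Fam.tab (AE * AE) AO 861 97 (j + 1) u| ≤ hTE := by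
  obtain ⟨y, h1, h2, h3⟩ := specE j hj
  rw [pE, Bool.and_eq_true] at h3
  exact rowOK_bd' hTE _ (by decide +kernel) _ (tabE_bd (j + 1) hj) y h1 h2 h3.1 u hu

theorem bigE : ((hTE : ℕ) : ℤ) <
    Fam.tab (AE * AE) AO 861 97 273 150 + Fam.tab (AE * AE) AO 861 97 273 149 +
    Fam.tab (AE * AE) AO 861 97 273 148 + Fam.tab (AE * AE) AO 861 97 273 147 +
    Fam.tab (AE * AE) AO 861 97 273 146 + Fam.tab (AE * AE) AO 861 97 273 145 +
    Fam.tab (AE * AE) AO 861 97 273 144 := by
  obtain ⟨y, _, h2, h3⟩ := specE 272 (by norm_num)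
  rw [pE, Bool.and_eq_true] at h3
  have h4 := h3.2
  simp only [bne_self_eq_false, Bool.false_or, Nat.blt_eq] at h4
  have hd : ∀ j < 861, ((dig y j : ℕ) : ℤ) =
      Fam.tab (AE * AE) AO 861 97 273 j + ((2 ^ 40 - 1 - hTE : ℕ) : ℤ) := fun j hj =>
    Fam.digit b0 861 (2 ^ 40 - 1 - hTE) _ _ (tabE_bd 273 (by norm_num))
      (by decide +kernel) (by decide +kernel) y h2 j hj
  have a1 := hd 150 (by norm_num)
  have a2 := hd 149 (by norm_num)
  have a3 := hd 148 (by norm_num)
  have a4 := hd 147 (by norm_num)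
  have a5 := hd 146 (by norm_num)
  have a6 := hd 145 (by norm_num)
  have a7 := hd 144 (by norm_num)
  generalize 2 ^ 40 - 1 - hTE = K at *
  generalize hTE = H at *
  omega

/-- No boundary term when the degree of `U` is below `N`. -/
theorem bd_of_tab0 (F U G : ℤ[X]) (N q D hT : ℕ) (hN : 0 < N) (hq : N ≤ q)
    (dU : U.natDegree < N) (dG : G.natDegree < D)
    (h : F * (X ^ N - 1) = U * expand ℤ q G)
    (hT' : ∀ j < D, ∀ u < N, |Fam.tab U G N (q % N) (j + 1) u| ≤ hT) : Bd F (hT : ℤ) := by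
  intro m
  have hall : ∀ j, ∀ u < N, |Fam.tab U G N (q % N) (j + 1) u| ≤ hT := by
    intro j
    induction j with
    | zero => exact hT' 0 (by omega)
    | succ j ih =>
      intro u hu
      by_cases hj : j + 1 < D
      · exact hT' _ hj u hu
      · have := ih u hu
        rw [Fam.tab] at this ⊢
        rw [sum_range_succ, coeff_eq_zero_of_natDegree_lt (p := G) (n := j + 1) (by omega),
          zero_mul, add_zero]
        exact this
  have e : m = m / q * q + m % q := (Nat.div_add_mod' m q).symm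
  rw [e, Fam.coeff_block F U G N q hN hq (by omega) h _ _ (Nat.mod_lt _ (by omega)),
    coeff_eq_zero_of_natDegree_lt (p := U) (n := m % q + N) (by omega), mul_zero, ite_self,
    add_zero, abs_neg]
  exact hall _ _ (Nat.mod_lt _ hN)

theorem core (q : ℕ) (h1 : 1318 < q) (h2 : q % 861 = 97) (FO FE : ℤ[X])
    (e1 : FO * AE = AO * expand ℤ q AE) (e2 : FE * AO = AE * expand ℤ q AO) :
    height FO < height (cyclotomic 7 ℤ * FE) ∧ height FE < height (cyclotomic 7 ℤ * FE) := by
  have gO : FO * (X ^ 861 - 1) = AO * AO * expand ℤ q AE := by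
    rw [← AO_mul_AE]
    linear_combination AO * e1
  have gE : FE * (X ^ 861 - 1) = AE * AE * expand ℤ q AO := by
    rw [← AO_mul_AE]
    linear_combination AE * e2
  have bO := Fam.bd_of_tab FO (AO * AO) AE 861 q 334 323951 42 hTO (by norm_num) (by omega) dUO
    (by rw [deg_AE]; norm_num) bd_UO bd_AE gO (by rw [h2]; exact rowsO)
  have bE := bd_of_tab0 FE (AE * AE) AO 861 q 529 hTE (by norm_num) (by omega) dUE
    (by rw [deg_AO]; norm_num) gE (by rw [h2]; exact rowsE)
  have cE : ∀ s u, 861 ≤ s → s < q → (272 * q + s) % 861 = u →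
      FE.coeff (272 * q + s) = -Fam.tab (AE * AE) AO 861 97 273 u := by
    intro s u a b c
    rw [Fam.coeff_block FE (AE * AE) AO 861 q (by norm_num) (by omega) (by have := dUE; omega)
      gE 272 s b, h2, c, if_neg (by omega), add_zero]
  have hbig : hTE < height (cyclotomic 7 ℤ * FE) := by
    refine lt_height (272 * q + 1318) ?_
    have : Fact (Nat.Prime 7) := ⟨by norm_num⟩
    rw [cyclotomic_prime, mul_comm _ FE, mul_sum, finsetSum_coeff]
    simp only [coeff_mul_X_pow', sum_range_succ, sum_range_zero]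
    rw [if_pos (by omega), if_pos (by omega), if_pos (by omega), if_pos (by omega),
      if_pos (by omega), if_pos (by omega), if_pos (by omega),
      show 272 * q + 1318 - 0 = 272 * q + 1318 by omega,
      show 272 * q + 1318 - 1 = 272 * q + 1317 by omega,
      show 272 * q + 1318 - 2 = 272 * q + 1316 by omega,
      show 272 * q + 1318 - 3 = 272 * q + 1315 by omega,
      show 272 * q + 1318 - 4 = 272 * q + 1314 by omega,
      show 272 * q + 1318 - 5 = 272 * q + 1313 by omega,
      show 272 * q + 1318 - 6 = 272 * q + 1312 by omega,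
      cE 1318 150 (by omega) (by omega) (by omega), cE 1317 149 (by omega) (by omega) (by omega),
      cE 1316 148 (by omega) (by omega) (by omega), cE 1315 147 (by omega) (by omega) (by omega),
      cE 1314 146 (by omega) (by omega) (by omega), cE 1313 145 (by omega) (by omega) (by omega),
      cE 1312 144 (by omega) (by omega) (by omega)]
    refine lt_of_lt_of_le bigE (le_trans (le_of_eq ?_) (neg_le_abs _))
    ring
  have hle : hTO + 42 * 323951 ≤ hTE := by decide +kernel
  exact ⟨lt_of_le_of_lt ((height_le bO).trans hle) hbig, lt_of_le_of_lt (height_le bE) hbig⟩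

theorem family (q : ℕ) (hq : q.Prime) (h1 : 1318 < q) (h2 : q % 861 = 97) :
    ∃ f : ℤ[X], f ∣ X ^ (861 * q) - 1 ∧
      height (∏ d ∈ (861 * q).divisors.filter (fun d => Odd d.primeFactors.card),
        cyclotomic d ℤ) < height f ∧
      height (∏ d ∈ (861 * q).divisors.filter (fun d => Even d.primeFactors.card),
        cyclotomic d ℤ) < height f := by
  have hqN : ¬ q ∣ 861 := fun h => by
    have := Nat.le_of_dvd (by norm_num) h
    omega
  have e1 := Fam.prod_split 861 q (by norm_num) hq hqN Odd Even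
    (fun c => by rw [Nat.odd_add_one, Nat.not_odd_iff_even])
  have e2 := Fam.prod_split 861 q (by norm_num) hq hqN Even Odd
    (fun c => by rw [Nat.even_add_one, Nat.not_even_iff_odd])
  rw [filt_odd, filt_even, ← AO, ← AE] at e1 e2
  have hsub : insert 7 ((861 * q).divisors.filter (fun d => Even d.primeFactors.card)) ⊆
      (861 * q).divisors := by
    refine insert_subset ?_ (filter_subset _ _)
    exact Nat.mem_divisors.2 ⟨Dvd.dvd.mul_right (by norm_num) q, by omega⟩
  have h7 : 7 ∉ (861 * q).divisors.filter (fun d => Even d.primeFactors.card) := by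
    intro h
    have := (mem_filter.1 h).2
    rw [(by norm_num : Nat.Prime 7).primeFactors] at this
    simp at this
  have hdvd := prod_dvd_prod_of_subset _ _ (fun d => cyclotomic d ℤ) hsub
  rw [prod_cyclotomic_eq_X_pow_sub_one (by omega), prod_insert h7] at hdvd
  exact ⟨_, hdvd, core q h1 h2 _ _ e1 e2⟩

theorem infinite : Set.Infinite {n : ℕ | Odd n ∧ Squarefree n ∧ n.primeFactors.card = 4 ∧
    ∃ f : ℤ[X], f ∣ X ^ n - 1 ∧
      height (∏ d ∈ n.divisors.filter (fun d => Odd d.primeFactors.card), cyclotomic d ℤ)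
        < height f ∧
      height (∏ d ∈ n.divisors.filter (fun d => Even d.primeFactors.card), cyclotomic d ℤ)
        < height f} := by
  refine Set.infinite_of_forall_exists_gt fun a => ?_
  obtain ⟨q, h1, hq, h2⟩ := Nat.forall_exists_prime_gt_and_modEq (a + 1318) (q := 861) (a := 97)
    (by norm_num) (by norm_num)
  have h3 : q % 861 = 97 := h2
  have hqN : ¬ q ∣ 861 := fun h => by
    have := Nat.le_of_dvd (by norm_num) h
    omega
  refine ⟨861 * q, ⟨?_, ?_, ?_, family q hq (by omega) h3⟩, by omega⟩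
  · exact Odd.mul (by decide) (hq.odd_of_ne_two (by omega))
  · exact Nat.squarefree_mul_iff.2 ⟨(hq.coprime_iff_not_dvd.2 hqN).symm, by decide +kernel,
      hq.squarefree⟩
  · rw [Nat.primeFactors_mul (by norm_num) hq.ne_zero, hq.primeFactors, union_comm, ← insert_eq,
      card_insert_of_notMem (fun h => hqN (Nat.dvd_of_mem_primeFactors h))]
    decide +kernel

end Pool.Agent.P.MP_7b9a49_nt.Four
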