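import Mathlib
import Pool.Agent.P.MP_7b9a49_nt.Defs

set_option autoImplicit false

namespace Pool.Agent.P.MP_7b9a49_nt

open Polynomial

/-- All coefficients are bounded by `M`. -/
def Bd (p : ℤ[X]) (M : ℤ) : Prop := ∀ i, |p.coeff i| ≤ M

theorem Bd.mul_factor {p : ℤ[X]} {M : ℤ} (h : Bd p M) (k : ℕ) : Bd (p * (X ^ k - 1)) (2 * M) := by
  intro i
  rw [mul_sub, mul_one, coeff_sub, coeff_mul_X_pow']
  have h1 := h i
  have h0 : 0 ≤ M := le_trans (abs_nonneg _) h1
  split_ifs with hk
  · have h2 := h (i - k)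
    have := abs_sub (p.coeff (i - k)) (p.coeff i)
    linarith
  · rw [zero_sub, abs_neg]; linarith

/-- Product of the factors `X ^ k - 1` over a list. -/
noncomputable def pr (ks : List ℕ) : ℤ[X] := (ks.map fun k => (X ^ k - 1 : ℤ[X])).prod

theorem Bd.mul_pr (ks : List ℕ) : ∀ {p : ℤ[X]} {M : ℤ}, Bd p M → Bd (p * pr ks) (2 ^ ks.length * M) := by
  induction ks with
  | nil => intro p M h; simpa [pr] using h
  | cons k ks ih =>
    intro p M h
    have := ih (h.mul_factor k)
    simp only [pr, List.map_cons, List.prod_cons, List.length_cons] at this ⊢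
    rw [← mul_assoc, pow_succ, mul_assoc (2 ^ ks.length : ℤ)]
    exact this

theorem bd_one : Bd 1 1 := by
  intro i
  rw [coeff_one]
  split_ifs <;> simp

theorem eq_zero_of_eval {p : ℤ[X]} {M B : ℤ} (h : Bd p M) (hB : M < B) (he : p.eval B = 0) :
    p = 0 := by
  by_contra hp
  obtain ⟨q, hq, hq0⟩ := exists_eq_pow_rootMultiplicity_mul_and_not_dvd p hp 0
  set m := rootMultiplicity 0 p
  simp only [C_0, sub_zero] at hq hq0
  have hM : 0 ≤ M := le_trans (abs_nonneg _) (h 0)
  have hB0 : B ≠ 0 := by omega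
  have h1 : q.eval B = 0 := by
    rw [hq, eval_mul, eval_pow, eval_X] at he
    exact (mul_eq_zero.1 he).resolve_left (pow_ne_zero _ hB0)
  have h2 : q.coeff 0 ≠ 0 := fun h => hq0 (X_dvd_iff.2 h)
  have h3 : p.coeff m = q.coeff 0 := by
    rw [hq]
    simpa using coeff_X_pow_mul q m 0
  have h4 : B ∣ q.coeff 0 := by
    have h5 := sub_dvd_eval_sub B 0 q
    rw [h1, sub_zero, zero_sub, dvd_neg, ← coeff_zero_eq_eval_zero] at h5
    exact h5
  have h6 := Int.le_abs_of_dvd h2 h4
  have h7 := h m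
  rw [h3] at h7
  omega

/-- Numerical value of `pr ks` at `B`, for `B` and all `k` positive. -/
def prN (B : ℕ) (ks : List ℕ) : ℤ := (ks.map fun k => ((B ^ k : ℕ) : ℤ) - 1).prod

theorem eval_pr (B : ℕ) (ks : List ℕ) : (pr ks).eval (B : ℤ) = prN B ks := by
  induction ks with
  | nil => simp [pr, prN]
  | cons k ks ih =>
    simp only [pr, prN, List.map_cons, List.prod_cons, eval_mul] at ih ⊢
    rw [ih]
    simp

theorem pr_ne_zero (ks : List ℕ) (h : ∀ k ∈ ks, 0 < k) : pr ks ≠ 0 := by
  unfold pr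
  apply List.prod_ne_zero
  intro h0
  obtain ⟨k, hk, hk0⟩ := List.mem_map.1 h0
  have := X_pow_sub_C_ne_zero (R := ℤ) (h k hk) 1
  simp only [map_one] at this
  exact this hk0

/-- The polynomial whose shifted coefficients are the base `B` digits of `N`. -/
noncomputable def poly (B h : ℕ) : ℕ → ℕ → ℤ[X]
  | 0, N => C ((N : ℤ) - h)
  | d + 1, N => poly B h d (N % B ^ 2 ^ d) + X ^ 2 ^ d * poly B h d (N / B ^ 2 ^ d)

/-- Its coefficients. -/
def coef (B h : ℕ) : ℕ → ℕ → ℕ → ℤ
  | 0, N, i => if i = 0 then (N : ℤ) - h else 0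
  | d + 1, N, i => if i < 2 ^ d then coef B h d (N % B ^ 2 ^ d) i
      else coef B h d (N / B ^ 2 ^ d) (i - 2 ^ d)

/-- Check that all digits are at most `2 * h`. -/
def chk (B h : ℕ) : ℕ → ℕ → Bool
  | 0, N => Nat.ble N (2 * h)
  | d + 1, N => chk B h d (N % B ^ 2 ^ d) && chk B h d (N / B ^ 2 ^ d)

/-- The repunit with `2 ^ d` digits. -/
def rep (B : ℕ) : ℕ → ℕ
  | 0 => 1
  | d + 1 => rep B d * (1 + B ^ 2 ^ d)

theorem coef_zero (B h : ℕ) : ∀ d N i, 2 ^ d ≤ i → coef B h d N i = 0 := by
  intro d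
  induction d with
  | zero => intro N i hi; simp only [coef]; rw [if_neg (by omega)]
  | succ d ih =>
    intro N i hi
    simp only [coef]
    rw [pow_succ] at hi
    rw [if_neg (by omega)]
    exact ih _ _ (by omega)

theorem coeff_poly (B h : ℕ) : ∀ d N i, (poly B h d N).coeff i = coef B h d N i := by
  intro d
  induction d with
  | zero => intro N i; simp only [poly, coef, coeff_C]
  | succ d ih =>
    intro N i
    simp only [poly, coef, coeff_add, coeff_X_pow_mul', ih]
    split_ifs with h1 h2 h2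
    · omega
    · rw [coef_zero B h d _ i h1, zero_add]
    · rw [add_zero]
    · omega

theorem eval_poly (B h : ℕ) : ∀ d N, (poly B h d N).eval (B : ℤ) = (N : ℤ) - h * rep B d := by
  intro d
  induction d with
  | zero => intro N; simp [poly, rep]
  | succ d ih =>
    intro N
    simp only [poly, rep, eval_add, eval_mul, eval_pow, eval_X, ih]
    have := Nat.mod_add_div N (B ^ 2 ^ d)
    have h2 : ((N % B ^ 2 ^ d : ℕ) : ℤ) + (B : ℤ) ^ 2 ^ d * ((N / B ^ 2 ^ d : ℕ) : ℤ) = N := by
      exact_mod_cast this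
    push_cast at h2 ⊢
    linear_combination h2

theorem chk_bd (B h : ℕ) : ∀ d N, chk B h d N = true → ∀ i, |coef B h d N i| ≤ h := by
  intro d
  induction d with
  | zero =>
    intro N hN i
    simp only [chk, Nat.ble_eq] at hN
    simp only [coef]
    split_ifs
    · rw [abs_le]; omega
    · simp
  | succ d ih =>
    intro N hN i
    simp only [chk, Bool.and_eq_true] at hN
    simp only [coef]
    split_ifs
    · exact ih _ hN.1 _
    · exact ih _ hN.2 _

/-- Identification of a quotient of two products with an explicit polynomial. -/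
theorem identify (P : ℤ[X]) (num den : List ℕ) (B h d N : ℕ) (hP : P * pr den = pr num)
    (hden : ∀ k ∈ den, 0 < k) (hc : chk B h d N = true)
    (hB : 2 ^ den.length * h + 2 ^ num.length < B)
    (he : ((N : ℤ) - h * rep B d) * prN B den = prN B num) : P = poly B h d N := by
  have b0 : Bd (poly B h d N) h := fun i => by rw [coeff_poly]; exact chk_bd B h d N hc i
  have b1 := b0.mul_pr den
  have b2 := bd_one.mul_pr num
  rw [one_mul] at b2
  have b3 : Bd (poly B h d N * pr den - pr num) (2 ^ den.length * h + 2 ^ num.length) := by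
    intro i
    rw [coeff_sub]
    have := abs_sub ((poly B h d N * pr den).coeff i) ((pr num).coeff i)
    have h1 := b1 i
    have h2 := b2 i
    linarith
  have h0 := eq_zero_of_eval b3 (B := B) (by exact_mod_cast hB)
    (by rw [eval_sub, eval_mul, eval_poly, eval_pr, eval_pr, he, sub_self])
  rw [← hP, ← sub_mul] at h0
  exact (sub_eq_zero.1 ((mul_eq_zero.1 h0).resolve_right (pr_ne_zero den hden))).symm

theorem pr_eq (n : ℕ) (hn : 0 < n) (ks : List ℕ) (h : ∀ k ∈ ks, k ∣ n) :
    pr ks = ∏ d ∈ n.divisors, cyclotomic d ℤ ^ (ks.countP (fun k => decide (d ∣ k))) := by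
  induction ks with
  | nil => simp [pr]
  | cons k ks ih =>
    have hk : k ∣ n := h k (by simp)
    have hk0 : 0 < k := Nat.pos_of_dvd_of_pos hk hn
    have ih' := ih (fun j hj => h j (by simp [hj]))
    simp only [pr, List.map_cons, List.prod_cons] at ih' ⊢
    rw [ih', ← prod_cyclotomic_eq_X_pow_sub_one hk0]
    simp only [List.countP_cons, pow_add, Finset.prod_mul_distrib]
    rw [mul_comm]
    congr 1
    have : k.divisors = n.divisors.filter (fun d => d ∣ k) := by
      rw [Nat.divisors_filter_dvd_of_dvd hn.ne' hk]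
    rw [this, Finset.prod_filter]
    refine Finset.prod_congr rfl fun d _ => ?_
    by_cases hd : d ∣ k <;> simp [hd]

theorem sub_mul_pr (n : ℕ) (hn : 0 < n) (S : Finset ℕ) (hS : S ⊆ n.divisors) (num den : List ℕ)
    (h1 : ∀ k ∈ num, k ∣ n) (h2 : ∀ k ∈ den, k ∣ n)
    (h3 : ∀ d ∈ n.divisors, (if d ∈ S then 1 else 0) + den.countP (fun k => decide (d ∣ k)) =
      num.countP (fun k => decide (d ∣ k))) :
    (∏ d ∈ S, cyclotomic d ℤ) * pr den = pr num := by
  rw [pr_eq n hn num h1, pr_eq n hn den h2]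
  have : ∏ d ∈ S, cyclotomic d ℤ = ∏ d ∈ n.divisors, cyclotomic d ℤ ^ (if d ∈ S then 1 else 0) := by
    rw [← Finset.inter_eq_right.2 hS, ← Finset.prod_ite_mem]
    refine Finset.prod_congr rfl fun d hd => ?_
    by_cases hdS : d ∈ S <;> simp [hdS, hd]
  rw [this, ← Finset.prod_mul_distrib]
  refine Finset.prod_congr rfl fun d hd => ?_
  rw [← pow_add, h3 d hd]

theorem height_le {p : ℤ[X]} {h : ℕ} (hp : Bd p h) : height p ≤ h := by
  unfold height
  refine Finset.sup_le fun i _ => ?_
  have := hp i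
  rw [Int.abs_eq_natAbs] at this
  exact_mod_cast this

theorem lt_height {p : ℤ[X]} {h : ℕ} (i : ℕ) (hp : (h : ℤ) < |p.coeff i|) : h < height p := by
  unfold height
  have hi : i ∈ p.support := by
    rw [mem_support_iff]
    intro h0
    rw [h0] at hp
    simp at hp
    omega
  refine lt_of_lt_of_le ?_ (Finset.le_sup (f := fun i => (p.coeff i).natAbs) hi)
  show h < (p.coeff i).natAbs
  rw [Int.abs_eq_natAbs] at hp
  exact_mod_cast hp

end Pool.Agent.P.MP_7b9a49_nt
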