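import Mathlib
import Pool.Agent.P.MP_7b9a49_nt.Kron

set_option autoImplicit false

namespace Pool.Agent.P.MP_7b9a49_nt

open Polynomial

def w1 : List ℕ := [2, 3, 7, 13, 19]
def w2 : List ℕ := [6, 14, 21, 26, 38, 39, 57, 91, 133, 247]
def w3 : List ℕ := [42, 78, 114, 182, 266, 273, 399, 494, 741, 1729]
def w4 : List ℕ := [546, 798, 1482, 3458, 5187]
def lA : List ℕ := w4 ++ w2 ++ w2 ++ w2 ++ w2 ++ List.replicate 16 1
def lB : List ℕ := w3 ++ w3 ++ w1 ++ w1 ++ w1 ++ w1 ++ w1 ++ w1 ++ w1 ++ w1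
def bB : ℕ := 2 ^ 128
def hh : ℕ := 8415683487216
def nO : ℕ := (prN bB (10374 :: lB) / prN bB lA).toNat + hh * rep bB 13
def nE : ℕ := (prN bB lA / prN bB lB).toNat + hh * rep bB 13
def sO : Finset ℕ := (10374 :: (w1 ++ w3)).toFinset
def sE : Finset ℕ := (1 :: (w2 ++ w4)).toFinset

theorem filter_odd : (10374 : ℕ).divisors.filter (fun d => Odd d.primeFactors.card) = sO := by
  decide +kernel

theorem filter_even : (10374 : ℕ).divisors.filter (fun d => Even d.primeFactors.card) = sE := by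
  decide +kernel

theorem odd_eq : ∏ d ∈ sO, cyclotomic d ℤ = poly bB hh 13 nO := by
  apply identify _ (10374 :: lB) lA
  · apply sub_mul_pr 10374 (by norm_num) <;> decide +kernel
  · decide +kernel
  · decide +kernel
  · decide +kernel
  · decide +kernel

theorem even_eq : ∏ d ∈ sE, cyclotomic d ℤ = poly bB hh 13 nE := by
  apply identify _ lA lB
  · apply sub_mul_pr 10374 (by norm_num) <;> decide +kernel
  · decide +kernel
  · decide +kernel
  · decide +kernel
  · decide +kernel

theorem chkO : chk bB hh 13 nO = true := by decide +kernel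
theorem chkE : chk bB hh 13 nE = true := by decide +kernel

theorem aux_coeff (p : ℤ[X]) (i : ℕ) : ((X - 1) * p).coeff (i + 1) = p.coeff i - p.coeff (i + 1) := by
  rw [sub_mul, one_mul, coeff_sub, coeff_X_mul]

theorem one_notMem : (1 : ℕ) ∉ sO := by decide +kernel

theorem big' : (hh : ℤ) < |coef bB hh 13 nO 2589 - coef bB hh 13 nO (2589 + 1)| := by
  decide +kernel

theorem hf : hh < height (∏ d ∈ insert 1 sO, cyclotomic d ℤ) := by
  apply lt_height (2589 + 1)
  rw [Finset.prod_insert one_notMem, cyclotomic_one, odd_eq, aux_coeff, coeff_poly, coeff_poly]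
  exact big'

theorem sqf : Squarefree (10374 : ℕ) := by decide +kernel

theorem subs : insert 1 sO ⊆ (10374 : ℕ).divisors := by decide +kernel

theorem hO : height (∏ d ∈ sO, cyclotomic d ℤ) ≤ hh := by
  rw [odd_eq]
  refine height_le fun i => ?_
  rw [coeff_poly]
  exact chk_bd _ _ _ _ chkO i

theorem hE : height (∏ d ∈ sE, cyclotomic d ℤ) ≤ hh := by
  rw [even_eq]
  refine height_le fun i => ?_
  rw [coeff_poly]
  exact chk_bd _ _ _ _ chkE i

theorem main_aux (m : ℕ) (A E S : Finset ℕ) (h : ℕ) (h1 : 1 < m) (h2 : Squarefree m)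
    (hA : m.divisors.filter (fun d => Odd d.primeFactors.card) = A)
    (hE : m.divisors.filter (fun d => Even d.primeFactors.card) = E)
    (hS : S ⊆ m.divisors) (k1 : height (∏ d ∈ A, cyclotomic d ℤ) ≤ h)
    (k2 : height (∏ d ∈ E, cyclotomic d ℤ) ≤ h) (k3 : h < height (∏ d ∈ S, cyclotomic d ℤ)) :
    ∃ (n : ℕ) (f : ℤ[X]), 1 < n ∧ Squarefree n ∧ f ∣ X ^ n - 1 ∧
    height (∏ d ∈ n.divisors.filter (fun d => Odd d.primeFactors.card), cyclotomic d ℤ)
      < height f ∧
    height (∏ d ∈ n.divisors.filter (fun d => Even d.primeFactors.card), cyclotomic d ℤ)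
      < height f := by
  refine ⟨m, ∏ d ∈ S, cyclotomic d ℤ, h1, h2, ?_, ?_, ?_⟩
  · rw [← prod_cyclotomic_eq_X_pow_sub_one (by omega)]
    exact Finset.prod_dvd_prod_of_subset _ _ _ hS
  · rw [hA]
    exact lt_of_le_of_lt k1 k3
  · rw [hE]
    exact lt_of_le_of_lt k2 k3

theorem main : ∃ (n : ℕ) (f : ℤ[X]), 1 < n ∧ Squarefree n ∧ f ∣ X ^ n - 1 ∧
    height (∏ d ∈ n.divisors.filter (fun d => Odd d.primeFactors.card), cyclotomic d ℤ)
      < height f ∧
    height (∏ d ∈ n.divisors.filter (fun d => Even d.primeFactors.card), cyclotomic d ℤ)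
      < height f :=
  main_aux 10374 sO sE (insert 1 sO) hh (by norm_num) sqf filter_odd filter_even subs hO hE hf

end Pool.Agent.P.MP_7b9a49_nt
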