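import Pool.Agent.P.MP_7b9a49_nt.Main

open Polynomial Pool.Agent.P.MP_7b9a49_nt in
theorem Pool.Agent.P.MP_7b9a49_nt.variantCounter :
    ∃ (n : ℕ) (f : ℤ[X]), 1 < n ∧ Squarefree n ∧ f ∣ X ^ n - 1 ∧
      height (∏ d ∈ n.divisors.filter (fun d => Odd d.primeFactors.card), cyclotomic d ℤ)
        < height f ∧
      height (∏ d ∈ n.divisors.filter (fun d => Even d.primeFactors.card), cyclotomic d ℤ)
        < height f :=
  Pool.Agent.P.MP_7b9a49_nt.main
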